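import Pool.Agent.H36.VDel

open Pool.Agent.H36.VDel

theorem Pool.Agent.Results.MP_f82fc2_lc.SetCoverHard.result (α : ℝ) (hα : 1 ≤ α) :
    ApproxVD TwoCosts α → ApproxSC (2 * α) :=
  transfer (by linarith)
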